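import Pool.Agent.Y6.F.Stm

/-!
# EF-ST1: static estimate, pairs of the type 1
-/

set_option autoImplicit false

namespace Pool.Agent.Y430.EF.ST1

open Pool.Agent.Y6.F
open Pool.Agent.Y6.M (cK Frame Md)

theorem ty1 {i : Md} {p : Md × Md} (h : Ty i p = 1) :
    σM p.1 = 0 ∧ σM p.2 = 0 ∧ ln p.1 ≤ 4 * ln i ∧ ln p.2 ≤ 4 * ln i := by
  unfold Ty at h
  split_ifs at h with h1 h2 h3
  · exact ⟨h1, h2, h3.1, h3.2⟩
  all_goals omega

theorem d0 {i : Md} {p : Md × Md} (h : Ty i p = 1) : D0 i p = 10 ^ 60 * ln i ^ 16 := by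
  obtain ⟨h1, h2, h3, h4⟩ := ty1 h
  unfold D0
  rw [if_pos h1, if_pos h2, if_pos ⟨h3, h4⟩]

theorem ck0 (h : Md → Pool.Agent.Y6.M.C3) (i a b : Md) (hs : a.1.1 + b.1.1 ≠ i.1.1) :
    cK h i a b = 0 := by
  unfold cK
  exact if_neg hs

theorem num {L a b ea eb E c : ℝ} (hL : 1 ≤ L) (ha : a ≤ 4 * L) (hb : b ≤ 4 * L) (ha0 : 0 ≤ a)
    (hb0 : 0 ≤ b) (hea : 0 ≤ ea) (heb : 0 ≤ eb) (hE : 0 ≤ E) (hee : ea * eb ≤ L * E)
    (_ : 0 ≤ c) (hc : c ≤ 8 * L) :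
    c / (10 ^ 60 * L ^ 16) * (2 * ea * eb + (10 ^ 4 * a ^ 2 * ea * eb + ea * (10 ^ 4 * b ^ 2 * eb)))
      ≤ (10 ^ 23)⁻¹ * (L ^ 7)⁻¹ * E := by
  have hL0 : 0 < L := by linarith
  have hT : 2 * ea * eb + (10 ^ 4 * a ^ 2 * ea * eb + ea * (10 ^ 4 * b ^ 2 * eb)) ≤
      4 * 10 ^ 5 * L ^ 3 * E := by
    have e1 : 2 * ea * eb + (10 ^ 4 * a ^ 2 * ea * eb + ea * (10 ^ 4 * b ^ 2 * eb)) =
        ea * eb * (2 + 10 ^ 4 * (a ^ 2 + b ^ 2)) := by ring
    have e2 : a ^ 2 ≤ (4 * L) ^ 2 := pow_le_pow_left₀ ha0 ha 2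
    have e3 : b ^ 2 ≤ (4 * L) ^ 2 := pow_le_pow_left₀ hb0 hb 2
    have e4 : 1 ≤ L ^ 2 := one_le_pow₀ hL
    have e5 : 2 + 10 ^ 4 * (a ^ 2 + b ^ 2) ≤ 4 * 10 ^ 5 * L ^ 2 := by nlinarith
    rw [e1]
    calc ea * eb * (2 + 10 ^ 4 * (a ^ 2 + b ^ 2)) ≤ (L * E) * (4 * 10 ^ 5 * L ^ 2) :=
          mul_le_mul hee e5 (by positivity) (by positivity)
      _ = 4 * 10 ^ 5 * L ^ 3 * E := by ring
  rw [div_mul_eq_mul_div, div_le_iff₀ (by positivity)]
  have hK : (10 ^ 23)⁻¹ * (L ^ 7)⁻¹ * E * (10 ^ 60 * L ^ 16) = 10 ^ 37 * (L ^ 9 * E) := by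
    field_simp
  rw [hK]
  have h49 : L ^ 4 ≤ L ^ 9 := pow_le_pow_right₀ hL (by norm_num)
  calc c * (2 * ea * eb + (10 ^ 4 * a ^ 2 * ea * eb + ea * (10 ^ 4 * b ^ 2 * eb)))
      ≤ (8 * L) * (4 * 10 ^ 5 * L ^ 3 * E) := mul_le_mul hc hT (by positivity) (by positivity)
    _ = 32 * 10 ^ 5 * (L ^ 4 * E) := by ring
    _ ≤ 10 ^ 37 * (L ^ 9 * E) := mul_le_mul (by norm_num) (mul_le_mul_of_nonneg_right h49 hE)
        (by positivity) (by positivity)

theorem t_ST1 : S_ST 1 := by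
  intro hLV hCODE hSUMS hVEC hLAT hENV h hF M hM i hi
  obtain ⟨hfin, hcard⟩ := hSUMS.2.1 i.1.1 i.1.2
  obtain ⟨-, -, -, -, hln, htri⟩ := hCODE
  obtain ⟨-, hck, -⟩ := hVEC h hF
  obtain ⟨hmono, hhalf, -, -, hbd⟩ := hENV.1 M hM
  set S : Set (Md × Md) := {p : Md × Md | σM p.1 = 0 ∧ σM p.2 = 0 ∧ p.1.1.1 + p.2.1.1 = i.1.1}
    with hS
  have hL : 1 ≤ ln i := (hln i).1
  have hE : 0 < env M (ln i) := (hbd _).1
  have hsupp : ∀ p, p ∉ hfin.toFinset → (if Ty i p = 1 then tm h M i p else 0) = 0 := by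
    intro p hp
    rw [Set.Finite.mem_toFinset] at hp
    by_cases hT : Ty i p = 1
    · rw [if_pos hT]
      obtain ⟨h1, h2, -, -⟩ := ty1 hT
      have h3 : p.1.1.1 + p.2.1.1 ≠ i.1.1 := fun h3 => hp ⟨h1, h2, h3⟩
      unfold tm
      rw [ck0 h i p.1 p.2 h3, norm_zero, zero_div, zero_mul, zero_mul, zero_mul, ite_self]
    · rw [if_neg hT]
  have hterm : ∀ p, (if Ty i p = 1 then tm h M i p else 0) ≤
      (10 ^ 23)⁻¹ * (ln i ^ 7)⁻¹ * env M (ln i) := by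
    intro p
    have hpos : 0 ≤ (10 ^ 23)⁻¹ * (ln i ^ 7)⁻¹ * env M (ln i) := by positivity
    by_cases hp : p ∈ hfin.toFinset
    · by_cases hT : Ty i p = 1
      · rw [if_pos hT]
        obtain ⟨h1, h2, h3, h4⟩ := ty1 hT
        rw [Set.Finite.mem_toFinset] at hp
        obtain ⟨-, -, hsum⟩ := hp
        have hD : 0 < D0 i p := by rw [d0 hT]; positivity
        unfold tm
        rw [if_pos hD, d0 hT]
        unfold rF eF
        rw [if_pos h1, if_pos h2]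
        have ha : 1 ≤ ln p.1 := (hln _).1
        have hb : 1 ≤ ln p.2 := (hln _).1
        have hea := hbd (ln p.1)
        have heb := hbd (ln p.2)
        refine num hL h3 h4 (by linarith) (by linarith) hea.1.le heb.1.le hE.le ?_
          (norm_nonneg _) ?_
        · refine le_trans ?_ (hhalf (ln i) hL)
          have h5 := (htri i p.1 p.2 hsum).1
          rcases le_total (ln i / 2) (ln p.1) with h6 | h6
          · have h7 := hmono (ln i / 2) (ln p.1) (by linarith) h6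
            calc env M (ln p.1) * env M (ln p.2) ≤ env M (ln p.1) * 1 :=
                  mul_le_mul_of_nonneg_left heb.2 hea.1.le
              _ ≤ env M (ln i / 2) := by rw [mul_one]; exact h7
          · have h7 := hmono (ln i / 2) (ln p.2) (by linarith) (by linarith)
            calc env M (ln p.1) * env M (ln p.2) ≤ 1 * env M (ln p.2) :=
                  mul_le_mul_of_nonneg_right hea.2 heb.1.le
              _ ≤ env M (ln i / 2) := by rw [one_mul]; exact h7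
        · have h8 := (hck i p.1 p.2).1
          have h9 := Real.pi_le_four
          calc ‖cK h i p.1 p.2‖ ≤ 2 * Real.pi * ln i := h8
            _ ≤ 8 * ln i := mul_le_mul_of_nonneg_right (by linarith) (by linarith)
      · rw [if_neg hT]
        exact hpos
    · rw [hsupp p hp]
      exact hpos
  refine ⟨summable_of_ne_finset_zero (s := hfin.toFinset) hsupp, ?_⟩
  rw [tsum_eq_sum (s := hfin.toFinset) hsupp]
  refine (Finset.sum_le_card_nsmul _ _ _ fun p _ => hterm p).trans ?_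
  rw [nsmul_eq_mul]
  have hc2 : (hfin.toFinset.card : ℝ) ≤ 32 := by
    rw [← Set.ncard_eq_toFinset_card S hfin]
    exact_mod_cast hcard
  have hpos : 0 ≤ (ln i ^ 7)⁻¹ * env M (ln i) := by positivity
  calc (hfin.toFinset.card : ℝ) * ((10 ^ 23)⁻¹ * (ln i ^ 7)⁻¹ * env M (ln i))
      = (hfin.toFinset.card : ℝ) * (10 ^ 23)⁻¹ * ((ln i ^ 7)⁻¹ * env M (ln i)) := by ring
    _ ≤ (10 ^ 20)⁻¹ / 10 * ((ln i ^ 7)⁻¹ * env M (ln i)) := by
        refine mul_le_mul_of_nonneg_right ?_ hpos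
        have h1 : (hfin.toFinset.card : ℝ) * (10 ^ 23)⁻¹ ≤ 32 * (10 ^ 23)⁻¹ :=
          mul_le_mul_of_nonneg_right hc2 (by positivity)
        refine h1.trans ?_
        norm_num
    _ = _ := by ring

end Pool.Agent.Y430.EF.ST1
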